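import Mathlib
import Pool.Agent.X129.CramerSymm
import Pool.Agent.X129.AtomReduce

namespace Pool.Agent.Results.MP_c7609e_pr.RigidityNotOnlyExponential

open MeasureTheory ProbabilityTheory Set
open scoped NNReal ContDiff

/-- `L` is completely monotone on `[0,∞)`: continuous on `[0,∞)`, smooth on `(0,∞)`, and
`(-1)^n L^{(n)} ≥ 0` on `(0,∞)` for every `n`.  (Only the values of `L` on `[0,∞)` matter.) -/
def CompletelyMonotone (L : ℝ → ℝ) : Prop :=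
  ContinuousOn L (Ici 0) ∧ ContDiffOn ℝ ∞ L (Ioi 0) ∧
    ∀ (n : ℕ) (s : ℝ), 0 < s → 0 ≤ (-1) ^ n * iteratedDeriv n L s

/-- The class of the problem: completely monotone injective `L : [0,∞) → (0,1]`, `L 0 = 1`. -/
def InClass (L : ℝ → ℝ) : Prop :=
  CompletelyMonotone L ∧ (∀ s, 0 ≤ s → 0 < L s ∧ L s ≤ 1) ∧ InjOn L (Ici 0) ∧ L 0 = 1

/-- The range `I_L = L([0,∞))`. -/
def range (L : ℝ → ℝ) : Set ℝ := L '' Ici 0

/-- The inverse `L^{-1} : I_L → [0,∞)`. -/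
noncomputable def inv (L : ℝ → ℝ) : ℝ → ℝ := Function.invFunOn L (Ici 0)

/-- The operation `Φ_L(x,y) = L(L^{-1}(x) + L^{-1}(y))`. -/
noncomputable def Phi (L : ℝ → ℝ) (x y : ℝ) : ℝ := L (inv L x + inv L y)

/-- The class `𝒞` of functions `ψ(ξ) = σ²ξ²/2 + ∫ (1 - cos(tξ)) ν(dt)` with `ν` a measure on
`(0,∞)` such that `∫ min(1,t²) ν(dt) < ∞`. -/
def InC (ψ : ℝ → ℝ) : Prop :=
  ∃ (σ : ℝ) (ν : Measure ℝ), ν (Iic 0) = 0 ∧ ∫⁻ t, ENNReal.ofReal (min 1 (t ^ 2)) ∂ν < ⊤ ∧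
    ∀ ξ, ψ ξ = σ ^ 2 * ξ ^ 2 / 2 + ∫ t, (1 - Real.cos (t * ξ)) ∂ν

/-- The real-valued function `f` is the characteristic function of a probability measure. -/
def IsCharFun (f : ℝ → ℝ) : Prop :=
  ∃ μ : Measure ℝ, IsProbabilityMeasure μ ∧ ∀ ξ, charFun μ ξ = (f ξ : ℂ)

/-- Property (R). -/
def PropertyR (L : ℝ → ℝ) : Prop :=
  ∀ (a : ℝ) (f₁ f₂ : ℝ → ℝ), 0 < a → IsCharFun f₁ → IsCharFun f₂ →
    (∀ ξ, f₁ ξ ∈ range L) → (∀ ξ, f₂ ξ ∈ range L) →
    (∀ ξ, Phi L (f₁ ξ) (f₂ ξ) = L (a * ξ ^ 2)) →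
    ∃ η₁ η₂ : ℝ → ℝ, InC η₁ ∧ InC η₂ ∧ (∀ ξ, f₁ ξ = L (η₁ ξ)) ∧ (∀ ξ, f₂ ξ = L (η₂ ξ))

/-- The functions `L(s) = l + (1 - l) e^{-c s}`. -/
noncomputable def Lfun (l c : ℝ) (s : ℝ) : ℝ := l + (1 - l) * Real.exp (-(c * s))

lemma iteratedDeriv_Lfun (l c : ℝ) (n : ℕ) (s : ℝ) :
    iteratedDeriv (n + 1) (Lfun l c) s = (1 - l) * (-c) ^ (n + 1) * Real.exp (-(c * s)) := by
  induction n generalizing s with
  | zero =>
    rw [zero_add, iteratedDeriv_one]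
    have h : HasDerivAt (Lfun l c) ((1 - l) * (Real.exp (-(c * s)) * (-(c * 1)))) s := by
      unfold Lfun
      exact ((((hasDerivAt_id s).const_mul c).neg.exp).const_mul (1 - l)).const_add l
    rw [h.deriv]
    ring
  | succ n ih =>
    rw [iteratedDeriv_succ]
    have h0 : iteratedDeriv (n + 1) (Lfun l c)
        = fun s => (1 - l) * (-c) ^ (n + 1) * Real.exp (-(c * s)) := funext ih
    rw [h0]
    have h : HasDerivAt (fun s => (1 - l) * (-c) ^ (n + 1) * Real.exp (-(c * s)))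
        ((1 - l) * (-c) ^ (n + 1) * (Real.exp (-(c * s)) * (-(c * 1)))) s :=
      (((hasDerivAt_id s).const_mul c).neg.exp).const_mul _
    rw [h.deriv]
    ring

lemma injOn_Lfun {l c : ℝ} (hl1 : l < 1) (hc : 0 < c) : InjOn (Lfun l c) (Ici 0) := by
  intro s _ t _ h
  unfold Lfun at h
  have h1 : (1 - l) * Real.exp (-(c * s)) = (1 - l) * Real.exp (-(c * t)) := by linarith
  have h2 := mul_left_cancel₀ (by linarith : (1 : ℝ) - l ≠ 0) h1
  have h3 := Real.exp_injective h2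
  have h4 : c * s = c * t := by linarith
  exact mul_left_cancel₀ hc.ne' h4

lemma inClass_Lfun {l c : ℝ} (hl0 : 0 ≤ l) (hl1 : l < 1) (hc : 0 < c) : InClass (Lfun l c) := by
  have hcd : ContDiff ℝ ∞ (Lfun l c) := by
    unfold Lfun
    fun_prop
  refine ⟨⟨hcd.continuous.continuousOn, hcd.contDiffOn, ?_⟩, ?_, injOn_Lfun hl1 hc, ?_⟩
  · intro n s hs
    have he := Real.exp_pos (-(c * s))
    cases n with
    | zero =>
      rw [iteratedDeriv_zero, pow_zero, one_mul]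
      unfold Lfun
      have : 0 ≤ (1 - l) * Real.exp (-(c * s)) := mul_nonneg (by linarith) he.le
      linarith
    | succ n =>
      rw [iteratedDeriv_Lfun]
      have h1 : (-1 : ℝ) ^ (n + 1) * ((1 - l) * (-c) ^ (n + 1) * Real.exp (-(c * s)))
          = (1 - l) * c ^ (n + 1) * Real.exp (-(c * s)) := by
        have : (-1 : ℝ) ^ (n + 1) * (-c) ^ (n + 1) = c ^ (n + 1) := by
          rw [← mul_pow]
          ring
        linear_combination (1 - l) * Real.exp (-(c * s)) * this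
      rw [h1]
      have : 0 ≤ c ^ (n + 1) := pow_nonneg hc.le _
      exact mul_nonneg (mul_nonneg (by linarith) this) he.le
  · intro s hs
    have he := Real.exp_pos (-(c * s))
    have he1 : Real.exp (-(c * s)) ≤ 1 := by
      rw [Real.exp_le_one_iff]
      have := mul_nonneg hc.le hs
      linarith
    unfold Lfun
    constructor
    · have : 0 < (1 - l) * Real.exp (-(c * s)) := mul_pos (by linarith) he
      linarith
    · nlinarith
  · simp [Lfun]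

lemma inC_quadratic {κ : ℝ} (hκ : 0 ≤ κ) : InC (fun ξ => κ * ξ ^ 2) := by
  refine ⟨Real.sqrt (2 * κ), 0, by simp, by simp, fun ξ => ?_⟩
  rw [Real.sq_sqrt (by linarith)]
  simp
  ring

/-- Property (R) for `L(s) = l + (1 - l) e^{-c s}`. -/
lemma propertyR_Lfun {l c : ℝ} (_hl0 : 0 ≤ l) (hl1 : l < 1) (hc : 0 < c) :
    PropertyR (Lfun l c) := by
  intro a f₁ f₂ ha hf₁ hf₂ hr₁ hr₂ hΦ
  have hinj := injOn_Lfun (l := l) hl1 hc
  obtain ⟨μ₁, hμ₁, hc₁⟩ := hf₁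
  obtain ⟨μ₂, hμ₂, hc₂⟩ := hf₂
  -- the inverse values
  have hs : ∀ f : ℝ → ℝ, (∀ ξ, f ξ ∈ range (Lfun l c)) →
      ∀ ξ, 0 ≤ inv (Lfun l c) (f ξ) ∧ Lfun l c (inv (Lfun l c) (f ξ)) = f ξ := by
    intro f hf ξ
    exact ⟨Function.invFunOn_mem (hf ξ), Function.invFunOn_eq (hf ξ)⟩
  have hsum : ∀ ξ, inv (Lfun l c) (f₁ ξ) + inv (Lfun l c) (f₂ ξ) = a * ξ ^ 2 := by
    intro ξ
    refine hinj ?_ ?_ (hΦ ξ)
    · exact add_nonneg (hs f₁ hr₁ ξ).1 (hs f₂ hr₂ ξ).1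
    · exact mul_nonneg ha.le (sq_nonneg ξ)
  have hg : ∀ f : ℝ → ℝ, (∀ ξ, f ξ ∈ range (Lfun l c)) →
      ∀ ξ, (f ξ - l) / (1 - l) = Real.exp (-(c * inv (Lfun l c) (f ξ))) := by
    intro f hf ξ
    have h1 := (hs f hf ξ).2
    unfold Lfun at h1
    rw [div_eq_iff (by linarith : (1 : ℝ) - l ≠ 0)]
    have h2 : l + (1 - l) * Real.exp (-(c * inv (Lfun l c) (f ξ))) = f ξ := h1
    linarith
  have hlow : ∀ f : ℝ → ℝ, (∀ ξ, f ξ ∈ range (Lfun l c)) → ∀ ξ, l ≤ f ξ := by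
    intro f hf ξ
    have h1 := hg f hf ξ
    rw [div_eq_iff (by linarith : (1 : ℝ) - l ≠ 0)] at h1
    have h2 : 0 ≤ Real.exp (-(c * inv (Lfun l c) (f ξ))) * (1 - l) :=
      mul_nonneg (Real.exp_pos _).le (by linarith)
    linarith
  obtain ⟨ν₁, hν₁, hd₁⟩ := Pool.Agent.X129.AtomReduce.exists_reduced hl1 hc₁ (hlow f₁ hr₁)
  obtain ⟨ν₂, hν₂, hd₂⟩ := Pool.Agent.X129.AtomReduce.exists_reduced hl1 hc₂ (hlow f₂ hr₂)
  have hconv : ν₁ ∗ ν₂ = gaussianReal 0 (Real.toNNReal (2 * c * a)) := by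
    refine Measure.ext_of_charFun ?_
    ext ξ
    rw [charFun_conv, hd₁, hd₂, hg f₁ hr₁, hg f₂ hr₂, charFun_gaussianReal,
      Real.coe_toNNReal _ (by positivity), ← Complex.ofReal_mul, ← Real.exp_add]
    have h1 : -(c * inv (Lfun l c) (f₁ ξ)) + -(c * inv (Lfun l c) (f₂ ξ)) = -(c * (a * ξ ^ 2)) := by
      rw [← hsum ξ]
      ring
    rw [h1, Complex.ofReal_exp]
    congr 1
    push_cast
    ring
  have hconv' : ν₂ ∗ ν₁ = gaussianReal 0 (Real.toNNReal (2 * c * a)) := by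
    rw [Measure.conv_comm, hconv]
  obtain ⟨κ₁, hκ₁, he₁⟩ := Pool.Agent.X129.CramerSymm.cramer_real hconv hd₁ hd₂
  obtain ⟨κ₂, hκ₂, he₂⟩ := Pool.Agent.X129.CramerSymm.cramer_real hconv' hd₂ hd₁
  refine ⟨fun ξ => κ₁ / c * ξ ^ 2, fun ξ => κ₂ / c * ξ ^ 2,
    inC_quadratic (by positivity), inC_quadratic (by positivity), ?_, ?_⟩
  · intro ξ
    have h1 := he₁ ξ
    rw [div_eq_iff (by linarith : (1 : ℝ) - l ≠ 0)] at h1
    have h2 : c * (κ₁ / c * ξ ^ 2) = κ₁ * ξ ^ 2 := by field_simp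
    unfold Lfun
    rw [h2]
    linarith
  · intro ξ
    have h1 := he₂ ξ
    rw [div_eq_iff (by linarith : (1 : ℝ) - l ≠ 0)] at h1
    have h2 : c * (κ₂ / c * ξ ^ 2) = κ₂ * ξ ^ 2 := by field_simp
    unfold Lfun
    rw [h2]
    linarith

/-- **Result.** For all `0 ≤ l < 1` and `c > 0` the function `L(s) = l + (1 - l) e^{-c s}` belongs
to the class of the problem and has property (R).  For `0 < l < 1` it is not of the form
`e^{-c' s}`, so the assertion of Q1 (a function of the class has property (R) if and only if it is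
an exponential `e^{-c s}`, `c > 0`) is false. -/
theorem result :
    (∀ l c : ℝ, 0 ≤ l → l < 1 → 0 < c → InClass (Lfun l c) ∧ PropertyR (Lfun l c)) ∧
    (∀ l c : ℝ, 0 < l → l < 1 → 0 < c →
      ¬ ∃ c' : ℝ, 0 < c' ∧ ∀ s, 0 ≤ s → Lfun l c s = Real.exp (-(c' * s))) ∧
    (¬ ∀ L : ℝ → ℝ, InClass L →
      (PropertyR L ↔ ∃ c : ℝ, 0 < c ∧ ∀ s, 0 ≤ s → L s = Real.exp (-(c * s)))) := by
  have hne : ∀ l c : ℝ, 0 < l → l < 1 → 0 < c →
      ¬ ∃ c' : ℝ, 0 < c' ∧ ∀ s, 0 ≤ s → Lfun l c s = Real.exp (-(c' * s)) := by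
    rintro l c hl0 hl1 hc ⟨c', hc', h⟩
    obtain ⟨s, hs⟩ : ∃ s : ℝ, s = (-Real.log (l / 2)) / c' := ⟨_, rfl⟩
    have hlog : Real.log (l / 2) < 0 := Real.log_neg (by linarith) (by linarith)
    have hs0 : 0 ≤ s := by
      rw [hs]
      exact div_nonneg (by linarith) hc'.le
    have h1 := h s hs0
    have h2 : -(c' * s) = Real.log (l / 2) := by
      rw [hs]
      field_simp
    rw [h2, Real.exp_log (by linarith)] at h1
    unfold Lfun at h1
    have h3 : 0 < (1 - l) * Real.exp (-(c * s)) := mul_pos (by linarith) (Real.exp_pos _)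
    linarith
  refine ⟨fun l c h0 h1 hc => ⟨inClass_Lfun h0 h1 hc, propertyR_Lfun h0 h1 hc⟩, hne, ?_⟩
  intro h
  have h1 := (h (Lfun (1 / 2) 1) (inClass_Lfun (by norm_num) (by norm_num) (by norm_num))).1
    (propertyR_Lfun (by norm_num) (by norm_num) (by norm_num))
  exact hne (1 / 2) 1 (by norm_num) (by norm_num) (by norm_num) h1

end Pool.Agent.Results.MP_c7609e_pr.RigidityNotOnlyExponential
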